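import Pool.Agent.Lib.MP_b5021c_nt.IfaceB

/-!
# MMU: the Mahler measure `M` is multiplicative, at least one, and one for units
-/

namespace Pool.Agent.B5.H45

open scoped LaurentPolynomial
open Polynomial

section

variable {O : Type} [CommRing O] [Coef O]

theorem evL_add (z : ℂ) (p q : RO O) : evL z (p + q) = evL z p + evL z q := by
  unfold evL
  rw [AddMonoidAlgebra.coeff_add]
  exact Finsupp.sum_add_index' (by simp) (by intro a b c; rw [map_add, add_mul])

theorem evL_zero (z : ℂ) : evL z (0 : RO O) = 0 := by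
  unfold evL
  simp

theorem evL_single (z : ℂ) (n : ℤ) (c : O) :
    evL z (LaurentPolynomial.C c * LaurentPolynomial.T n) = Coef.emb c * z ^ n := by
  unfold evL
  rw [← LaurentPolynomial.single_eq_C_mul_T, AddMonoidAlgebra.coeff_single]
  exact Finsupp.sum_single_index (by simp)

/-- `evL` is the ring homomorphism `eval₂` at non-zero points. -/
theorem evL_eq (x : ℂˣ) (p : RO O) :
    evL (x : ℂ) p = LaurentPolynomial.eval₂ (Coef.emb : O →+* ℂ) x p := by
  induction p using LaurentPolynomial.induction_on' with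
  | add p q hp hq => rw [evL_add, hp, hq, map_add]
  | C_mul_T n a =>
    rw [evL_single, map_mul, LaurentPolynomial.eval₂_C, LaurentPolynomial.eval₂_T,
      Units.val_zpow_eq_zpow_val]

theorem evL_T_mul {z : ℂ} (hz : z ≠ 0) (n : ℤ) (q : O[X]) :
    evL z (LaurentPolynomial.T n * Polynomial.toLaurent q) = z ^ n * (q.map Coef.emb).eval z := by
  have h := evL_eq (O := O) (Units.mk0 z hz) (LaurentPolynomial.T n * Polynomial.toLaurent q)
  rw [Units.val_mk0] at h
  rw [h, map_mul, LaurentPolynomial.eval₂_T, LaurentPolynomial.eval₂_toLaurent,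
    Units.val_zpow_eq_zpow_val, Units.val_mk0, Polynomial.eval_map]

theorem map_emb_ne_zero {q : O[X]} (hq : q ≠ 0) : q.map (Coef.emb : O →+* ℂ) ≠ 0 :=
  (Polynomial.map_ne_zero_iff emb_inj).mpr hq

theorem M_T_mul (n : ℤ) {q : O[X]} (hq : q ≠ 0) :
    M (LaurentPolynomial.T n * Polynomial.toLaurent q) = (q.map Coef.emb).mahlerMeasure := by
  rw [Polynomial.mahlerMeasure, if_pos (map_emb_ne_zero hq), M, Polynomial.logMahlerMeasure_def]
  congr 1
  refine Real.circleAverage_congr_sphere fun z hz => ?_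
  have hz1 : ‖z‖ = 1 := by simpa using hz
  have hz0 : z ≠ 0 := by
    intro h
    rw [h, norm_zero] at hz1
    exact zero_ne_one hz1
  show Real.log ‖evL z _‖ = Real.log ‖Polynomial.eval z _‖
  rw [evL_T_mul hz0, norm_mul, norm_zpow, hz1, one_zpow, one_mul]

omit [Coef O] in
theorem exists_poly (p : RO O) (hp : p ≠ 0) : ∃ (n : ℕ) (q : O[X]), q ≠ 0 ∧
    p = LaurentPolynomial.T (-(n : ℤ)) * Polynomial.toLaurent q := by
  obtain ⟨n, q, hq⟩ := LaurentPolynomial.exists_T_pow p
  have h : p = LaurentPolynomial.T (-(n : ℤ)) * Polynomial.toLaurent q := by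
    rw [hq, mul_comm p, ← mul_assoc, ← LaurentPolynomial.T_add, neg_add_cancel,
      LaurentPolynomial.T_zero, one_mul]
  refine ⟨n, q, ?_, h⟩
  rintro rfl
  apply hp
  rw [h, map_zero, mul_zero]

theorem M_zero : M (0 : RO O) = 1 := by
  unfold M
  simp [evL_zero, Real.circleAverage_def]

theorem M_one : M (1 : RO O) = 1 := by
  by_cases h : Nontrivial O
  · have h1 : (1 : RO O) = LaurentPolynomial.T 0 * Polynomial.toLaurent (1 : O[X]) := by
      rw [LaurentPolynomial.T_zero, map_one, one_mul]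
    rw [h1, M_T_mul 0 one_ne_zero]
    simp
  · rw [not_nontrivial_iff_subsingleton] at h
    rw [Subsingleton.elim (1 : RO O) 0, M_zero]

theorem one_le_M (p : RO O) : 1 ≤ M p := by
  by_cases hp : p = 0
  · rw [hp, M_zero]
  obtain ⟨n, q, hq, rfl⟩ := exists_poly p hp
  rw [M_T_mul _ hq]
  refine Polynomial.one_le_mahlerMeasure_of_one_le_norm_leadingCoeff ?_
  rw [Polynomial.leadingCoeff_map_of_injective emb_inj]
  exact Coef.one_le _ (Polynomial.leadingCoeff_ne_zero.mpr hq)

theorem M_mul [IsDomain O] {p q : RO O} (hp : p ≠ 0) (hq : q ≠ 0) : M (p * q) = M p * M q := by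
  obtain ⟨n, p', hp', rfl⟩ := exists_poly p hp
  obtain ⟨m, q', hq', rfl⟩ := exists_poly q hq
  have h : LaurentPolynomial.T (-(n : ℤ)) * Polynomial.toLaurent p' *
      (LaurentPolynomial.T (-(m : ℤ)) * Polynomial.toLaurent q') =
      LaurentPolynomial.T (-(n : ℤ) + -(m : ℤ)) * Polynomial.toLaurent (p' * q') := by
    rw [LaurentPolynomial.T_add, map_mul]
    ring
  rw [h, M_T_mul _ (mul_ne_zero hp' hq'), M_T_mul _ hp', M_T_mul _ hq', Polynomial.map_mul,
    Polynomial.mahlerMeasure_mul]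

end

theorem mmul : MmulS := by
  intro O _ _ _ _
  refine ⟨fun p q hp hq => M_mul hp hq, one_le_M, ?_⟩
  intro c hc
  obtain ⟨c', hc'⟩ := hc.exists_right_inv
  have h0 : c ≠ 0 := hc.ne_zero
  have h0' : c' ≠ 0 := by
    rintro rfl
    rw [mul_zero] at hc'
    exact zero_ne_one hc'
  have h1 := M_mul h0 h0'
  rw [hc', M_one] at h1
  nlinarith [one_le_M c, one_le_M c']

end Pool.Agent.B5.H45
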